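import Mathlib

/-!
# `F₂ × F₂` is intersection-full

The group `F₂ × F₂` is finitely presented, every intersection configuration is realizable in it,
and it does not contain `F₂ × ℤ²`.

The realization of a configuration `c` on `[k]`: let `S` be the set of nonempty `I ⊆ [k]` with
`c(I) = 1`.  Let `A` be free on `a_s, c_s` (`s ∈ S`), `B` free on `b_{s,j}` (`s ∈ S`, `j ∈ [k]`)
and `R` free on `S`, with `Φ : A → R`, `a_s ↦ s`, `c_s ↦ 1` and `Ψ : B → R`, `b_{s,j} ↦ s`.
Then `H_i` consists of the pairs `(x, y)` with `Φ x = Ψ y`, `x ∈ ⟨a_s, c_s : i ∈ s⟩` and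
`y ∈ ⟨b_{s,j} : i, j ∈ s, j ≠ i⟩`.
-/

namespace Pool.Agent.Results.MP_d567b2_al.ProductOfTwoFree

open Function

/-- A configuration `c` (a `0/1`-valued map on subsets of `[k]`, only its values on nonempty
subsets matter) is realizable in `G` if there are subgroups `H_1, …, H_k` such that for every
nonempty `I` the intersection `⋂_{i ∈ I} H_i` is finitely generated iff `c I = 0`. -/
def Realizable (G : Type*) [Group G] {k : ℕ} (c : Finset (Fin k) → Fin 2) : Prop :=
  ∃ H : Fin k → Subgroup G, ∀ I : Finset (Fin k), I.Nonempty →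
    ((⨅ i ∈ I, H i).FG ↔ c I = 0)

/-- `G` is intersection-full if every configuration is realizable in `G`. -/
def IntersectionFull (G : Type*) [Group G] : Prop :=
  ∀ k : ℕ, 1 ≤ k → ∀ c : Finset (Fin k) → Fin 2, Realizable G c

/-! ### Subgroups generated by parts of the basis -/

section sub

variable {α : Type*}

/-- the subgroup generated by the basis elements in `T` -/
def sub (T : Set α) : Subgroup (FreeGroup α) := Subgroup.closure (FreeGroup.of '' T)

open Classical in
/-- the retraction killing all basis elements outside `T` -/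
noncomputable def ret (T : Set α) : FreeGroup α →* FreeGroup α :=
  FreeGroup.lift fun t => if t ∈ T then FreeGroup.of t else 1

lemma ret_mem (T : Set α) (x : FreeGroup α) : ret T x ∈ sub T := by
  induction x using FreeGroup.induction_on with
  | C1 => rw [map_one]; exact one_mem _
  | of t =>
    rw [ret, FreeGroup.lift_apply_of]
    split_ifs with h
    · exact Subgroup.subset_closure ⟨t, h, rfl⟩
    · exact one_mem _
  | inv_of t h => rw [map_inv]; exact inv_mem h
  | mul x y hx hy => rw [map_mul]; exact mul_mem hx hy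

lemma ret_eq {T T' : Set α} (h : T ⊆ T') {x : FreeGroup α} (hx : x ∈ sub T) : ret T' x = x := by
  refine Subgroup.closure_induction (p := fun x _ => ret T' x = x) ?_ ?_ ?_ ?_ hx
  · rintro _ ⟨t, ht, rfl⟩
    rw [ret, FreeGroup.lift_apply_of, if_pos (h ht)]
  · exact map_one _
  · intro x y _ _ hx hy; rw [map_mul, hx, hy]
  · intro x _ hx; rw [map_inv, hx]

lemma ret_ret (T T' : Set α) (x : FreeGroup α) : ret T (ret T' x) = ret (T ∩ T') x := by
  classical
  induction x using FreeGroup.induction_on with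
  | C1 => simp
  | of t =>
    simp only [ret, FreeGroup.lift_apply_of]
    by_cases h' : t ∈ T' <;> by_cases h : t ∈ T <;> simp [h, h']
  | inv_of t h => simp only [map_inv, h]
  | mul x y hx hy => simp only [map_mul, hx, hy]

lemma mem_sub_inter {T T' : Set α} {x : FreeGroup α} (h : x ∈ sub T) (h' : x ∈ sub T') :
    x ∈ sub (T ∩ T') := by
  have : ret (T ∩ T') x = x := by
    rw [← ret_ret, ret_eq subset_rfl h', ret_eq subset_rfl h]
  rw [← this]; exact ret_mem _ _

lemma sub_mono {T T' : Set α} (h : T ⊆ T') : sub T ≤ sub T' :=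
  Subgroup.closure_mono (Set.image_mono h)

lemma mem_sub_iff_forall {ι : Type*} [DecidableEq ι] (T : ι → Set α) (I : Finset ι)
    (x : FreeGroup α) : (∀ i ∈ I, x ∈ sub (T i)) ↔ x ∈ sub {t | ∀ i ∈ I, t ∈ T i} := by
  constructor
  · induction I using Finset.induction_on with
    | empty =>
      intro _
      have : {t : α | ∀ i ∈ (∅ : Finset ι), t ∈ T i} = Set.univ := by ext; simp
      rw [this, sub, Set.image_univ, FreeGroup.closure_range_of]
      trivial
    | insert i I hi ih =>
      intro h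
      have h1 := h i (Finset.mem_insert_self _ _)
      have h2 := ih fun j hj => h j (Finset.mem_insert_of_mem hj)
      refine sub_mono ?_ (mem_sub_inter h1 h2)
      rintro t ⟨ht1, ht2⟩ j hj
      rcases Finset.mem_insert.mp hj with rfl | hj
      · exact ht1
      · exact ht2 j hj
  · intro h i hi
    have hs : {t | ∀ i ∈ I, t ∈ T i} ⊆ T i := fun t (ht : ∀ i ∈ I, t ∈ T i) => ht i hi
    exact sub_mono hs h

end sub

/-! ### The lamplighter group `ℤ ≀ ℤ` (unrestricted) -/

/-- pairs of a function and a shift -/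
@[ext] structure L where
  /-- lamps -/
  f : ℤ → ℤ
  /-- shift -/
  n : ℤ

instance : Mul L := ⟨fun x y => ⟨fun j => x.f j + y.f (j - x.n), x.n + y.n⟩⟩
instance : One L := ⟨⟨fun _ => 0, 0⟩⟩
instance : Inv L := ⟨fun x => ⟨fun j => - x.f (j + x.n), - x.n⟩⟩

@[simp] lemma mul_f (x y : L) (j : ℤ) : (x * y).f j = x.f j + y.f (j - x.n) := rfl
@[simp] lemma mul_n (x y : L) : (x * y).n = x.n + y.n := rfl
@[simp] lemma one_f (j : ℤ) : (1 : L).f j = 0 := rfl
@[simp] lemma one_n : (1 : L).n = 0 := rfl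
@[simp] lemma inv_f (x : L) (j : ℤ) : (x⁻¹).f j = - x.f (j + x.n) := rfl
@[simp] lemma inv_n (x : L) : (x⁻¹).n = - x.n := rfl

instance : Group L := Group.ofLeftAxioms
  (by
    intro x y z
    ext j
    · simp [add_assoc, sub_sub]
    · simp [add_assoc])
  (by
    intro x
    ext j
    · simp
    · simp)
  (by
    intro x
    ext j
    · simp
    · simp)

/-- elements with support in a bounded set -/
def Bdd : Subgroup L where
  carrier := {g | ∃ M : ℤ, ∀ j, M < |j| → g.f j = 0}
  one_mem' := ⟨0, fun _ _ => rfl⟩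
  mul_mem' := by
    rintro x y ⟨M, hM⟩ ⟨M', hM'⟩
    refine ⟨max M (M' + |x.n|), fun j hj => ?_⟩
    have h1 : M < |j| := lt_of_le_of_lt (le_max_left _ _) hj
    have h2 : M' + |x.n| < |j| := lt_of_le_of_lt (le_max_right _ _) hj
    have h3 : |j| - |x.n| ≤ |j - x.n| := abs_sub_abs_le_abs_sub j x.n
    rw [mul_f, hM j h1, hM' (j - x.n) (by linarith), add_zero]
  inv_mem' := by
    rintro x ⟨M, hM⟩
    refine ⟨M + |x.n|, fun j hj => ?_⟩
    have h3 : |j| - |(-x.n)| ≤ |j - (-x.n)| := abs_sub_abs_le_abs_sub j (-x.n)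
    rw [abs_neg, sub_neg_eq_add] at h3
    rw [inv_f, hM (j + x.n) (by linarith), neg_zero]

/-- unshifted elements with support in `[-M, M]` -/
def UM (M : ℤ) : Subgroup L where
  carrier := {g | g.n = 0 ∧ ∀ j, M < |j| → g.f j = 0}
  one_mem' := ⟨rfl, fun _ _ => rfl⟩
  mul_mem' := by
    rintro x y ⟨hx, hM⟩ ⟨hy, hM'⟩
    refine ⟨by rw [mul_n, hx, hy, add_zero], fun j hj => ?_⟩
    rw [mul_f, hM j hj, hx, sub_zero, hM' j hj, add_zero]
  inv_mem' := by
    rintro x ⟨hx, hM⟩
    refine ⟨by rw [inv_n, hx, neg_zero], fun j hj => ?_⟩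
    rw [inv_f, hx, add_zero, hM j hj, neg_zero]

/-- the shift -/
def tt : L := ⟨fun _ => 0, 1⟩
/-- the lamp at the origin -/
def dd : L := ⟨fun j => if j = 0 then 1 else 0, 0⟩

lemma tt_pow (m : ℕ) : tt ^ m = ⟨fun _ => 0, m⟩ := by
  induction m with
  | zero => rfl
  | succ m ih =>
    rw [pow_succ, ih]
    ext j
    · simp [tt]
    · simp [tt]

lemma tt_mem : tt ∈ Bdd := ⟨0, fun _ _ => rfl⟩

lemma dd_mem : dd ∈ Bdd := ⟨0, fun j hj => by
  have : j ≠ 0 := by rintro rfl; simp at hj
  simp [dd, this]⟩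

/-! ### The realization -/

section real

variable {k : ℕ} (c : Finset (Fin k) → Fin 2)

/-- the index set of the nonempty `I` with `c I = 1` -/
abbrev Ind : Type := {I : Finset (Fin k) // I.Nonempty ∧ c I ≠ 0}

/-- first free group -/
abbrev A : Type := FreeGroup (Ind c × Bool)
/-- second free group -/
abbrev Bf : Type := FreeGroup (Ind c × Fin k)
/-- common quotient -/
abbrev R : Type := FreeGroup (Ind c)

/-- `Φ` -/
def Phi : A c →* R c := FreeGroup.lift fun t => if t.2 then FreeGroup.of t.1 else 1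
/-- `Ψ` -/
def Psi : Bf c →* R c := FreeGroup.lift fun t => FreeGroup.of t.1
/-- section of `Φ` -/
def sig : R c →* A c := FreeGroup.lift fun s => FreeGroup.of (s, true)

/-- the basis elements used on the left -/
def TT (i : Fin k) : Set (Ind c × Bool) := {t | i ∈ t.1.1}
/-- the basis elements used on the right -/
def UU (i : Fin k) : Set (Ind c × Fin k) := {t | i ∈ t.1.1 ∧ t.2 ∈ t.1.1 ∧ t.2 ≠ i}

/-- the subgroups -/
def HH (i : Fin k) : Subgroup (A c × Bf c) where
  carrier := {p | p.1 ∈ sub (TT c i) ∧ p.2 ∈ sub (UU c i) ∧ Phi c p.1 = Psi c p.2}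
  one_mem' := ⟨one_mem _, one_mem _, by simp⟩
  mul_mem' := by
    rintro x y ⟨hx, hx', hx''⟩ ⟨hy, hy', hy''⟩
    exact ⟨mul_mem hx hy, mul_mem hx' hy', by simp [hx'', hy'']⟩
  inv_mem' := by
    rintro x ⟨hx, hx', hx''⟩
    exact ⟨inv_mem hx, inv_mem hx', by simp [hx'']⟩

/-- the basis elements used on the left, for `I` -/
def TI (I : Finset (Fin k)) : Set (Ind c × Bool) := {t | I ⊆ t.1.1}
/-- the basis elements used on the right, for `I` -/
def UI (I : Finset (Fin k)) : Set (Ind c × Fin k) := {t | I ⊆ t.1.1 ∧ t.2 ∈ t.1.1 ∧ t.2 ∉ I}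

lemma mem_HI (I : Finset (Fin k)) (hI : I.Nonempty) (p : A c × Bf c) :
    p ∈ (⨅ i ∈ I, HH c i) ↔
      p.1 ∈ sub (TI c I) ∧ p.2 ∈ sub (UI c I) ∧ Phi c p.1 = Psi c p.2 := by
  have h1 : {t | ∀ i ∈ I, t ∈ TT c i} = TI c I := by
    ext t; rfl
  have h2 : {t | ∀ i ∈ I, t ∈ UU c i} = UI c I := by
    ext t
    constructor
    · intro h
      obtain ⟨i, hi⟩ := hI
      exact ⟨fun j hj => (h j hj).1, (h i hi).2.1, fun hj => (h _ hj).2.2 rfl⟩
    · rintro ⟨h1, h2, h3⟩ i hi
      exact ⟨h1 hi, h2, fun h => h3 (h ▸ hi)⟩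
  rw [← h1, ← h2, ← mem_sub_iff_forall, ← mem_sub_iff_forall]
  simp only [Subgroup.mem_iInf]
  constructor
  · intro h
    obtain ⟨i, hi⟩ := hI
    exact ⟨fun j hj => (h j hj).1, fun j hj => (h j hj).2.1, (h i hi).2.2⟩
  · rintro ⟨h1, h2, h3⟩ i hi
    exact ⟨h1 i hi, h2 i hi, h3⟩

/-- the finite generating set of `H_I` when `c I = 0` -/
def gens (I : Finset (Fin k)) : Set (A c × Bf c) :=
  {p | ∃ t : Ind c × Fin k, t ∈ UI c I ∧ p = (FreeGroup.of (t.1, true), FreeGroup.of t)} ∪
  {p | ∃ s : Ind c, I ⊆ s.1 ∧ p = (FreeGroup.of (s, false), 1)}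

lemma gens_finite (I : Finset (Fin k)) : (gens c I).Finite := by
  refine Set.Finite.union ?_ ?_
  · refine (Set.finite_range fun t : Ind c × Fin k =>
      ((FreeGroup.of (t.1, true), FreeGroup.of t) : A c × Bf c)).subset ?_
    rintro _ ⟨t, _, rfl⟩
    exact ⟨t, rfl⟩
  · refine (Set.finite_range fun s : Ind c =>
      ((FreeGroup.of (s, false), 1) : A c × Bf c)).subset ?_
    rintro _ ⟨t, _, rfl⟩
    exact ⟨t, rfl⟩

lemma gens_le (I : Finset (Fin k)) (hI : I.Nonempty) :
    Subgroup.closure (gens c I) ≤ ⨅ i ∈ I, HH c i := by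
  rw [Subgroup.closure_le]
  rintro p (⟨t, ht, rfl⟩ | ⟨s, hs, rfl⟩)
  · rw [SetLike.mem_coe, mem_HI c I hI]
    refine ⟨Subgroup.subset_closure ⟨_, ht.1, rfl⟩, Subgroup.subset_closure ⟨_, ht, rfl⟩, ?_⟩
    simp [Phi, Psi]
  · rw [SetLike.mem_coe, mem_HI c I hI]
    refine ⟨Subgroup.subset_closure ⟨_, hs, rfl⟩, one_mem _, ?_⟩
    simp [Phi]

lemma le_gens (I : Finset (Fin k)) (hI : I.Nonempty) (hc : c I = 0) :
    (⨅ i ∈ I, HH c i) ≤ Subgroup.closure (gens c I) := by
  set K := Subgroup.closure (gens c I) with hK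
  -- every `s ⊇ I` in the index set is strictly larger
  have hex : ∀ s : Ind c, I ⊆ s.1 → ∃ j, ((s, j) : Ind c × Fin k) ∈ UI c I := by
    intro s hs
    have hne : I ≠ s.1 := by
      intro h; exact s.2.2 (h ▸ hc)
    obtain ⟨j, hj, hj'⟩ := Finset.exists_of_ssubset (Finset.ssubset_iff_subset_ne.mpr ⟨hs, hne⟩)
    exact ⟨j, hs, hj, hj'⟩
  -- first projection of `K`
  have hQ : sub (TI c I) ≤ K.map (MonoidHom.fst (A c) (Bf c)) := by
    rw [sub, Subgroup.closure_le]
    rintro _ ⟨⟨s, b⟩, hs, rfl⟩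
    cases b with
    | false =>
      exact ⟨(FreeGroup.of (s, false), 1), Subgroup.subset_closure (Or.inr ⟨s, hs, rfl⟩), rfl⟩
    | true =>
      obtain ⟨j, hj⟩ := hex s hs
      exact ⟨(FreeGroup.of (s, true), FreeGroup.of (s, j)),
        Subgroup.subset_closure (Or.inl ⟨_, hj, rfl⟩), rfl⟩
  have hconj : ∀ x ∈ sub (TI c I), ∀ u : A c, ((u, 1) : A c × Bf c) ∈ K →
      ((x * u * x⁻¹, 1) : A c × Bf c) ∈ K := by
    intro x hx u hu
    obtain ⟨⟨x', y⟩, hxy, rfl⟩ := hQ hx
    have := mul_mem (mul_mem hxy hu) (inv_mem hxy)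
    simpa using this
  have hP : ∀ x ∈ sub (TI c I), ((x * (sig c (Phi c x))⁻¹, 1) : A c × Bf c) ∈ K := by
    intro x hx
    refine Subgroup.closure_induction (p := fun x _ =>
      ((x * (sig c (Phi c x))⁻¹, 1) : A c × Bf c) ∈ K) ?_ ?_ ?_ ?_ hx
    · rintro _ ⟨⟨s, b⟩, hs, rfl⟩
      cases b with
      | false =>
        have : ((FreeGroup.of (s, false), 1) : A c × Bf c) ∈ K :=
          Subgroup.subset_closure (Or.inr ⟨s, hs, rfl⟩)
        simpa [Phi] using this
      | true =>
        have : ((1, 1) : A c × Bf c) ∈ K := one_mem K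
        simpa [Phi, sig] using this
    · have : ((1, 1) : A c × Bf c) ∈ K := one_mem K
      simpa using this
    · intro x y hx _ ihx ihy
      have h1 := hconj x hx _ ihy
      have h2 := mul_mem h1 ihx
      simpa [mul_assoc] using h2
    · intro x hx ihx
      have h1 := hconj x⁻¹ (inv_mem hx) _ (inv_mem ihx)
      simpa [mul_assoc] using h1
  have hY : ∀ y ∈ sub (UI c I), ∃ x, ((x, y) : A c × Bf c) ∈ K := by
    intro y hy
    refine Subgroup.closure_induction (p := fun y _ =>
      ∃ x, ((x, y) : A c × Bf c) ∈ K) ?_ ?_ ?_ ?_ hy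
    · rintro _ ⟨t, ht, rfl⟩
      exact ⟨_, Subgroup.subset_closure (Or.inl ⟨_, ht, rfl⟩)⟩
    · exact ⟨1, one_mem K⟩
    · rintro y y' _ _ ⟨x, hx⟩ ⟨x', hx'⟩
      exact ⟨x * x', mul_mem hx hx'⟩
    · rintro y _ ⟨x, hx⟩
      exact ⟨x⁻¹, inv_mem hx⟩
  rintro ⟨x, y⟩ hxy
  obtain ⟨x0, hx0⟩ := hY y ((mem_HI c I hI _).mp hxy).2.1
  have h1 : ((x * x0⁻¹, 1) : A c × Bf c) ∈ ⨅ i ∈ I, HH c i := by
    have := mul_mem hxy (inv_mem (gens_le c I hI hx0))
    simpa using this
  rw [mem_HI c I hI] at h1
  have h2 := hP _ h1.1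
  have h3 : Phi c (x * x0⁻¹) = 1 := by simpa using h1.2.2
  rw [h3] at h2
  have h4 := mul_mem h2 hx0
  simpa using h4

open Classical in
/-- the test homomorphism to the lamplighter group -/
noncomputable def lam (s0 : Ind c) : A c →* L :=
  FreeGroup.lift fun t => if t.1 = s0 then (if t.2 then tt else dd) else 1

open Classical in
/-- exponent sum of `s0` -/
noncomputable def expo (s0 : Ind c) : R c →* Multiplicative ℤ :=
  FreeGroup.lift fun s => if s = s0 then Multiplicative.ofAdd 1 else 1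

lemma lam_bdd (s0 : Ind c) (x : A c) : lam c s0 x ∈ Bdd := by
  induction x using FreeGroup.induction_on with
  | C1 => rw [map_one]; exact one_mem _
  | of t =>
    rw [lam, FreeGroup.lift_apply_of]
    split_ifs
    · exact tt_mem
    · exact dd_mem
    · exact one_mem _
  | inv_of t h => rw [map_inv]; exact inv_mem h
  | mul x y hx hy => rw [map_mul]; exact mul_mem hx hy

lemma lam_n (s0 : Ind c) (x : A c) :
    (lam c s0 x).n = Multiplicative.toAdd (expo c s0 (Phi c x)) := by
  induction x using FreeGroup.induction_on with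
  | C1 => simp
  | of t =>
    rcases t with ⟨s, b⟩
    simp only [lam, expo, Phi, FreeGroup.lift_apply_of]
    by_cases h : s = s0 <;> cases b <;> simp [h, tt, dd]
  | inv_of t h => simp only [map_inv, inv_n, h, toAdd_inv]
  | mul x y hx hy => simp only [map_mul, mul_n, hx, hy, toAdd_mul]

lemma not_fg (I : Finset (Fin k)) (hI : I.Nonempty) (hc : c I ≠ 0) :
    ¬ (⨅ i ∈ I, HH c i).FG := by
  rintro ⟨S, hS⟩
  set s0 : Ind c := ⟨I, hI, hc⟩ with hs0
  have hn : ∀ p ∈ (⨅ i ∈ I, HH c i), (lam c s0 p.1).n = 0 := by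
    intro p hp
    rw [mem_HI c I hI] at hp
    rw [lam_n, hp.2.2]
    have : ∀ y ∈ sub (UI c I), expo c s0 (Psi c y) = 1 := by
      intro y hy
      refine Subgroup.closure_induction (p := fun y _ => expo c s0 (Psi c y) = 1) ?_ ?_ ?_ ?_ hy
      · rintro _ ⟨t, ht, rfl⟩
        simp only [Psi, expo, FreeGroup.lift_apply_of]
        rw [if_neg]
        intro h
        apply ht.2.2
        have := ht.2.1
        rw [h] at this
        exact this
      · simp
      · intro x y _ _ hx hy; simp [hx, hy]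
      · intro x _ hx; simp [hx]
    rw [this _ hp.2.1]; rfl
  -- a uniform bound
  have hM : ∃ M : ℤ, ∀ p ∈ S, ∀ j, M < |j| → (lam c s0 p.1).f j = 0 := by
    classical
    clear hS
    induction S using Finset.induction_on with
    | empty => exact ⟨0, by simp⟩
    | insert p S _ ih =>
      obtain ⟨M, hM⟩ := ih
      obtain ⟨M', hM'⟩ := lam_bdd c s0 p.1
      refine ⟨max M M', ?_⟩
      intro q hq j hj
      rcases Finset.mem_insert.mp hq with rfl | hq
      · exact hM' j (lt_of_le_of_lt (le_max_right _ _) hj)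
      · exact hM q hq j (lt_of_le_of_lt (le_max_left _ _) hj)
  obtain ⟨M, hM⟩ := hM
  have hle : (⨅ i ∈ I, HH c i) ≤ (UM M).comap ((lam c s0).comp (MonoidHom.fst _ _)) := by
    rw [← hS, Subgroup.closure_le]
    intro p hp
    have hp' : p ∈ (⨅ i ∈ I, HH c i) := by rw [← hS]; exact Subgroup.subset_closure hp
    exact ⟨hn p hp', hM p hp⟩
  set m : ℕ := (M.toNat + 1) with hm
  have hx : ((FreeGroup.of (s0, true) ^ m * FreeGroup.of (s0, false) *
      (FreeGroup.of (s0, true) ^ m)⁻¹, 1) : A c × Bf c) ∈ ⨅ i ∈ I, HH c i := by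
    rw [mem_HI c I hI]
    have h1 : FreeGroup.of (s0, true) ∈ sub (TI c I) :=
      Subgroup.subset_closure ⟨_, Finset.Subset.refl I, rfl⟩
    have h2 : FreeGroup.of (s0, false) ∈ sub (TI c I) :=
      Subgroup.subset_closure ⟨_, Finset.Subset.refl I, rfl⟩
    refine ⟨mul_mem (mul_mem (pow_mem h1 _) h2) (inv_mem (pow_mem h1 _)), one_mem _, ?_⟩
    simp [Phi]
  have h3 := (hle hx).2 m (by
    rw [abs_of_nonneg (by positivity), hm]
    push_cast
    have := Int.self_le_toNat M
    omega)
  have h4 : ((lam c s0).comp (MonoidHom.fst (A c) (Bf c)))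
      (FreeGroup.of (s0, true) ^ m * FreeGroup.of (s0, false) *
      (FreeGroup.of (s0, true) ^ m)⁻¹, 1) = tt ^ m * dd * (tt ^ m)⁻¹ := by
    simp [lam]
  rw [h4, tt_pow] at h3
  simp [dd] at h3

theorem realizable_AB : Realizable (A c × Bf c) c := by
  refine ⟨HH c, fun I hI => ⟨fun h => ?_, fun h => ?_⟩⟩
  · by_contra hc
    exact not_fg c I hI hc h
  · have : (⨅ i ∈ I, HH c i) = Subgroup.closure (gens c I) :=
      le_antisymm (le_gens c I hI h) (gens_le c I hI)
    rw [this, Subgroup.fg_iff]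
    exact ⟨_, rfl, gens_finite c I⟩

end real

/-! ### Transfer along injections -/

theorem Realizable.of_injective {G G' : Type*} [Group G] [Group G'] (f : G →* G')
    (hf : Injective f) {k : ℕ} {c : Finset (Fin k) → Fin 2} (h : Realizable G c) :
    Realizable G' c := by
  obtain ⟨H, hH⟩ := h
  refine ⟨fun i => (H i).map f, fun I hI => ?_⟩
  have : (⨅ i ∈ I, (H i).map f) = (⨅ i ∈ I, H i).map f := by
    ext y
    simp only [Subgroup.mem_iInf, Subgroup.mem_map]
    constructor
    · intro h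
      obtain ⟨i0, hi0⟩ := hI
      obtain ⟨x, hx, rfl⟩ := h i0 hi0
      refine ⟨x, fun i hi => ?_, rfl⟩
      obtain ⟨x', hx', he⟩ := h i hi
      rwa [← hf he]
    · rintro ⟨x, hx, rfl⟩ i hi
      exact ⟨x, hx i hi, rfl⟩
  rw [this, ← hH I hI]
  constructor
  · rintro ⟨S, hS⟩
    have hS' : ∀ y ∈ S, ∃ x, f x = y := by
      intro y hy
      have : y ∈ (⨅ i ∈ I, H i).map f := by rw [← hS]; exact Subgroup.subset_closure hy
      obtain ⟨x, _, hx⟩ := this
      exact ⟨x, hx⟩
    classical
    rw [Subgroup.fg_iff]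
    refine ⟨f ⁻¹' (S : Set G'), ?_, S.finite_toSet.preimage hf.injOn⟩
    apply Subgroup.map_injective hf
    rw [MonoidHom.map_closure, Set.image_preimage_eq_of_subset, hS]
    intro y hy
    exact hS' y hy
  · intro h
    rw [Subgroup.fg_iff] at h ⊢
    obtain ⟨S, hS, hfin⟩ := h
    exact ⟨f '' S, by rw [← MonoidHom.map_closure, hS], hfin.image f⟩

/-! ### Free groups of finite rank embed in `F₂` -/

/-- the shift action of `ℤ` on the free group on `ℤ` -/
def shiftAct : Multiplicative ℤ →* MulAut (FreeGroup ℤ) where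
  toFun n := FreeGroup.freeGroupCongr (Equiv.addRight (Multiplicative.toAdd n))
  map_one' := by
    ext x
    induction x using FreeGroup.induction_on with
    | C1 => simp
    | of t => simp
    | inv_of t h => simp only [map_inv, h]
    | mul x y hx hy => simp only [map_mul, hx, hy]
  map_mul' m n := by
    ext x
    induction x using FreeGroup.induction_on with
    | C1 => simp
    | of t => simp [add_comm, add_left_comm]
    | inv_of t h => simp only [map_inv, h]
    | mul x y hx hy => simp only [map_mul, hx, hy]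

/-- the embedding of the free group on `ℤ` in `F₂` -/
def emb : FreeGroup ℤ →* FreeGroup (Fin 2) :=
  FreeGroup.lift fun n => FreeGroup.of 0 ^ n * FreeGroup.of 1 * (FreeGroup.of 0 ^ n)⁻¹

/-- the test map -/
def tst : FreeGroup (Fin 2) →* FreeGroup ℤ ⋊[shiftAct] Multiplicative ℤ :=
  FreeGroup.lift fun i => if i = 0 then SemidirectProduct.inr (Multiplicative.ofAdd 1)
    else SemidirectProduct.inl (FreeGroup.of 0)

lemma tst_emb (x : FreeGroup ℤ) : tst (emb x) = SemidirectProduct.inl x := by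
  induction x using FreeGroup.induction_on with
  | C1 => simp
  | of n =>
    have h0 : tst (FreeGroup.of 0) = SemidirectProduct.inr (Multiplicative.ofAdd 1) := by
      simp [tst]
    have h1 : tst (FreeGroup.of 1) = SemidirectProduct.inl (FreeGroup.of 0) := by
      simp [tst]
    rw [emb, FreeGroup.lift_apply_of, map_mul, map_mul, map_inv, map_zpow, h0, h1, ← map_zpow,
      ← map_inv]
    rw [← SemidirectProduct.inl_aut]
    congr 1
    simp [shiftAct]
  | inv_of t h => simp only [map_inv, h]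
  | mul x y hx hy => simp only [map_mul, hx, hy]

lemma emb_injective : Injective emb := by
  intro x y h
  have := congrArg tst h
  rw [tst_emb, tst_emb] at this
  exact SemidirectProduct.inl_injective this

lemma exists_embedding (α : Type) [Countable α] :
    ∃ f : FreeGroup α →* FreeGroup (Fin 2), Injective f := by
  obtain ⟨g, hg⟩ := exists_injective_nat α
  refine ⟨emb.comp (FreeGroup.map fun a => (g a : ℤ)), ?_⟩
  rw [MonoidHom.coe_comp]
  exact emb_injective.comp (FreeGroup.map_injective (Nat.cast_injective.comp hg))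

theorem full : IntersectionFull (FreeGroup (Fin 2) × FreeGroup (Fin 2)) := by
  intro k _ c
  obtain ⟨f, hf⟩ := exists_embedding (Ind c × Bool)
  obtain ⟨g, hg⟩ := exists_embedding (Ind c × Fin k)
  exact (realizable_AB c).of_injective (f.prodMap g)
    (by rw [MonoidHom.coe_prodMap]; exact hf.prodMap hg)

/-! ### `F₂ × F₂` is finitely presented -/

/-- free group of rank two -/
abbrev F : Type := FreeGroup (Fin 2)

theorem fp : Group.IsFinitelyPresented (FreeGroup (Fin 2) × FreeGroup (Fin 2)) := by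
  let C : Set (Monoid.Coprod F F) := Set.range fun p : Fin 2 × Fin 2 =>
    (Monoid.Coprod.inl (FreeGroup.of p.1) : Monoid.Coprod F F) *
      Monoid.Coprod.inr (FreeGroup.of p.2) * (Monoid.Coprod.inl (FreeGroup.of p.1))⁻¹ *
      (Monoid.Coprod.inr (FreeGroup.of p.2))⁻¹
  have hker : (Monoid.Coprod.toProd (M := F) (N := F)).ker = Subgroup.normalClosure C := by
    apply le_antisymm
    · let N := Subgroup.normalClosure C
      let q := QuotientGroup.mk' N
      have hgen : ∀ i j : Fin 2, Commute (q (Monoid.Coprod.inl (FreeGroup.of i)))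
          (q (Monoid.Coprod.inr (FreeGroup.of j))) := by
        intro i j
        rw [← commutatorElement_eq_one_iff_commute, commutatorElement_def]
        have h : q ((Monoid.Coprod.inl (FreeGroup.of i) : Monoid.Coprod F F) *
            Monoid.Coprod.inr (FreeGroup.of j) * (Monoid.Coprod.inl (FreeGroup.of i))⁻¹ *
            (Monoid.Coprod.inr (FreeGroup.of j))⁻¹) = 1 :=
          (QuotientGroup.eq_one_iff _).mpr (Subgroup.subset_normalClosure ⟨(i, j), rfl⟩)
        rw [map_mul q, map_mul q, map_mul q, map_inv q, map_inv q] at h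
        exact h
      have h1 : ∀ (i : Fin 2) (y : F), Commute (q (Monoid.Coprod.inl (FreeGroup.of i)))
          (q (Monoid.Coprod.inr y)) := by
        intro i y
        induction y using FreeGroup.induction_on with
        | C1 => simp
        | of j => exact hgen i j
        | inv_of j h => rw [map_inv, map_inv]; exact h.inv_right
        | mul x y hx hy => rw [map_mul, map_mul]; exact hx.mul_right hy
      have h2 : ∀ (x y : F), Commute ((q.comp Monoid.Coprod.inl) x)
          ((q.comp Monoid.Coprod.inr) y) := by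
        intro x y
        induction x using FreeGroup.induction_on with
        | C1 => simp
        | of j => exact h1 j y
        | inv_of j h => rw [map_inv]; exact h.inv_left
        | mul x y hx hy => rw [map_mul]; exact hx.mul_left hy
      let r := MonoidHom.noncommCoprod (q.comp Monoid.Coprod.inl) (q.comp Monoid.Coprod.inr) h2
      have hr : r.comp Monoid.Coprod.toProd = q := by
        apply Monoid.Coprod.hom_ext
        · ext i
          simp [r]
        · ext i
          simp [r]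
      intro x hx
      rw [MonoidHom.mem_ker] at hx
      have : q x = 1 := by rw [← hr, MonoidHom.comp_apply, hx, map_one]
      exact (QuotientGroup.eq_one_iff _).mp this
    · apply Subgroup.normalClosure_le_normal
      rintro _ ⟨p, rfl⟩
      rw [SetLike.mem_coe, MonoidHom.mem_ker]
      exact Prod.ext (by simp) (by simp)
  exact Group.IsFinitelyPresented.of_surjective (Monoid.Coprod.toProd (M := F) (N := F))
    (fun p => ⟨Monoid.Coprod.inl p.1 * Monoid.Coprod.inr p.2, by simp⟩)
    ⟨C, Set.finite_range _, hker.symm⟩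

/-! ### `F₂ × F₂` does not contain `F₂ × ℤ²` -/

/-- Commuting elements of a free group are powers of a common element. -/
theorem exists_root {G : Type} [Group G] [IsFreeGroup G] {b c : G} (h : Commute b c) :
    ∃ r : G, ∃ i j : ℤ, b = r ^ i ∧ c = r ^ j := by
  let H : Subgroup G := Subgroup.closure {b, c}
  have hb : b ∈ H := Subgroup.subset_closure (by simp)
  have hc : c ∈ H := Subgroup.subset_closure (by simp)
  have hcomm : ∀ x ∈ ({b, c} : Set G), ∀ y ∈ ({b, c} : Set G), x * y = y * x := by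
    rintro x (rfl | rfl) y (rfl | rfl)
    · rfl
    · exact h
    · exact h.symm
    · rfl
  have hH : ∀ x y : H, x * y = y * x := by
    intro x y
    have := (Subgroup.isMulCommutative_closure hcomm).is_comm.comm x y
    exact this
  let Y := IsFreeGroup.Generators H
  let e : H ≃* FreeGroup Y := IsFreeGroup.toFreeGroup H
  have hsub : Subsingleton Y := by
    constructor
    intro x y
    by_contra hxy
    have h1 : (FreeGroup.of x : FreeGroup Y) * FreeGroup.of y
        = FreeGroup.of y * FreeGroup.of x := by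
      apply e.symm.injective
      rw [map_mul, map_mul, hH]
    classical
    have h2 := congrArg FreeGroup.toWord h1
    simp only [FreeGroup.toWord_mul, FreeGroup.toWord_of] at h2
    have h3 : FreeGroup.reduce ([(x, true)] ++ [(y, true)]) = [(x, true), (y, true)] := by
      simp [FreeGroup.reduce, hxy]
    have h4 : FreeGroup.reduce ([(y, true)] ++ [(x, true)]) = [(y, true), (x, true)] := by
      simp [FreeGroup.reduce]
    rw [h3, h4] at h2
    simp at h2
    exact hxy h2.1
  have hcyc : ∃ r : FreeGroup Y, ∀ z : FreeGroup Y, ∃ i : ℤ, z = r ^ i := by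
    rcases isEmpty_or_nonempty Y with hY | ⟨⟨y⟩⟩
    · exact ⟨1, fun z => ⟨0, Subsingleton.elim _ _⟩⟩
    · refine ⟨FreeGroup.of y, fun z => ?_⟩
      have hz : z ∈ Subgroup.closure (Set.range (FreeGroup.of : Y → FreeGroup Y)) := by
        rw [FreeGroup.closure_range_of]; trivial
      have hr : Set.range (FreeGroup.of : Y → FreeGroup Y) = {FreeGroup.of y} := by
        ext w
        constructor
        · rintro ⟨y', rfl⟩
          rw [Subsingleton.elim y' y]; rfl
        · rintro rfl
          exact ⟨y, rfl⟩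
      rw [hr] at hz
      obtain ⟨i, hi⟩ := Subgroup.mem_closure_singleton.mp hz
      exact ⟨i, hi.symm⟩
  obtain ⟨r, hr⟩ := hcyc
  obtain ⟨i, hi⟩ := hr (e ⟨b, hb⟩)
  obtain ⟨j, hj⟩ := hr (e ⟨c, hc⟩)
  refine ⟨((e.symm r : H) : G), i, j, ?_, ?_⟩
  · have := congrArg (fun z => ((e.symm z : H) : G)) hi
    simpa using this
  · have := congrArg (fun z => ((e.symm z : H) : G)) hj
    simpa using this

/-- Commuting elements of a free group satisfy a nontrivial relation. -/
lemma exists_rel {b c : FreeGroup (Fin 2)} (h : Commute b c) :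
    ∃ i j : ℤ, ¬ (i = 0 ∧ j = 0) ∧ b ^ i * c ^ j = 1 := by
  obtain ⟨r, i, j, rfl, rfl⟩ := exists_root h
  by_cases h0 : i = 0 ∧ j = 0
  · exact ⟨1, 0, by simp, by simp [h0.1]⟩
  · refine ⟨j, -i, fun h1 => h0 ⟨by omega, h1.1⟩, ?_⟩
    rw [← zpow_mul, ← zpow_mul, ← zpow_add]
    have : i * j + j * -i = 0 := by ring
    rw [this, zpow_zero]

/-- There is no injective homomorphism from `ℤ³` to `F₂ × F₂`, in terms of a commuting triple. -/
lemma triple_rel (u v w : FreeGroup (Fin 2) × FreeGroup (Fin 2)) (huv : Commute u v)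
    (huw : Commute u w) (hvw : Commute v w) :
    ∃ i j l : ℤ, ¬ (i = 0 ∧ j = 0 ∧ l = 0) ∧ u ^ i * v ^ j * w ^ l = 1 := by
  have fst_comm : ∀ {a b : FreeGroup (Fin 2) × FreeGroup (Fin 2)}, Commute a b →
      Commute a.1 b.1 := fun h => congrArg Prod.fst h
  have snd_comm : ∀ {a b : FreeGroup (Fin 2) × FreeGroup (Fin 2)}, Commute a b →
      Commute a.2 b.2 := fun h => congrArg Prod.snd h
  -- an auxiliary statement: two elements with trivial first coordinate
  have aux : ∀ a b : FreeGroup (Fin 2) × FreeGroup (Fin 2), Commute a b → a.1 = 1 → b.1 = 1 →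
      ∃ p q : ℤ, ¬ (p = 0 ∧ q = 0) ∧ a ^ p * b ^ q = 1 := by
    intro a b hab ha hb
    obtain ⟨p, q, hpq, he⟩ := exists_rel (snd_comm hab)
    exact ⟨p, q, hpq, Prod.ext (by simp [ha, hb]) (by simpa using he)⟩
  obtain ⟨i, j, hij, h1⟩ := exists_rel (fst_comm huv)
  by_cases hi : i = 0
  · have hj : j ≠ 0 := fun h => hij ⟨hi, h⟩
    obtain ⟨k, l, hkl, h2⟩ := exists_rel (fst_comm huw)
    have ha : (v ^ j).1 = 1 := by simpa [hi] using h1
    have hb : (u ^ k * w ^ l).1 = 1 := by simpa using h2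
    have hcomm : Commute (v ^ j) (u ^ k * w ^ l) :=
      ((huv.symm.zpow_zpow j k).mul_right (hvw.zpow_zpow j l))
    obtain ⟨p, q, hpq, h3⟩ := aux _ _ hcomm ha hb
    refine ⟨k * q, j * p, l * q, ?_, ?_⟩
    · rintro ⟨e1, e2, e3⟩
      apply hpq
      have hp : p = 0 := by
        rcases mul_eq_zero.mp e2 with h | h
        · exact absurd h hj
        · exact h
      refine ⟨hp, ?_⟩
      by_contra hq
      apply hkl
      exact ⟨(mul_eq_zero.mp e1).resolve_right hq, (mul_eq_zero.mp e3).resolve_right hq⟩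
    · rw [(huw.zpow_zpow k l).mul_zpow, ← zpow_mul, ← zpow_mul, ← zpow_mul, ← mul_assoc] at h3
      rw [(huv.zpow_zpow (k * q) (j * p)).eq]
      exact h3
  · obtain ⟨k, l, hkl, h2⟩ := exists_rel (fst_comm hvw)
    have ha : (u ^ i * v ^ j).1 = 1 := by simpa using h1
    have hb : (v ^ k * w ^ l).1 = 1 := by simpa using h2
    have hcomm : Commute (u ^ i * v ^ j) (v ^ k * w ^ l) :=
      Commute.mul_left ((huv.zpow_zpow i k).mul_right (huw.zpow_zpow i l))
        (((Commute.refl v).zpow_zpow j k).mul_right (hvw.zpow_zpow j l))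
    obtain ⟨p, q, hpq, h3⟩ := aux _ _ hcomm ha hb
    refine ⟨i * p, j * p + k * q, l * q, ?_, ?_⟩
    · rintro ⟨e1, e2, e3⟩
      have hp : p = 0 := (mul_eq_zero.mp e1).resolve_left hi
      apply hpq
      refine ⟨hp, ?_⟩
      by_contra hq
      apply hkl
      rw [hp, mul_zero, zero_add] at e2
      exact ⟨(mul_eq_zero.mp e2).resolve_right hq, (mul_eq_zero.mp e3).resolve_right hq⟩
    · rw [(huv.zpow_zpow i j).mul_zpow, (hvw.zpow_zpow k l).mul_zpow, ← zpow_mul, ← zpow_mul,
        ← zpow_mul, ← zpow_mul] at h3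
      rw [zpow_add, ← h3]
      simp only [mul_assoc]

/-- the group `F₂ × ℤ²` -/
abbrev D : Type := FreeGroup (Fin 2) × Multiplicative (Fin 2 → ℤ)

lemma D_pow (x : D) (i : ℤ) (t : Fin 2) :
    Multiplicative.toAdd (x ^ i).2 t = i * Multiplicative.toAdd x.2 t := by
  rw [Prod.pow_snd, toAdd_zpow, Pi.smul_apply, smul_eq_mul]

lemma D_mul (x y : D) (t : Fin 2) :
    Multiplicative.toAdd (x * y).2 t = Multiplicative.toAdd x.2 t + Multiplicative.toAdd y.2 t :=
  rfl

theorem no_embedding : ¬ ∃ f : FreeGroup (Fin 2) × Multiplicative (Fin 2 → ℤ) →*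
    FreeGroup (Fin 2) × FreeGroup (Fin 2), Injective f := by
  rintro ⟨f, hf⟩
  let a : D := (FreeGroup.of 0, 1)
  let z1 : D := (1, Multiplicative.ofAdd (Pi.single 0 1))
  let z2 : D := (1, Multiplicative.ofAdd (Pi.single 1 1))
  have h1 : Commute a z1 := Prod.ext ((mul_one _).trans (one_mul _).symm) (mul_comm _ _)
  have h2 : Commute a z2 := Prod.ext ((mul_one _).trans (one_mul _).symm) (mul_comm _ _)
  have h3 : Commute z1 z2 := Prod.ext rfl (mul_comm _ _)
  obtain ⟨i, j, l, hne, he⟩ := triple_rel (f a) (f z1) (f z2) (h1.map f) (h2.map f) (h3.map f)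
  rw [← map_zpow, ← map_zpow, ← map_zpow, ← map_mul, ← map_mul, ← map_one f] at he
  have he' := hf he
  apply hne
  have e1 : (FreeGroup.of (0 : Fin 2)) ^ i = 1 := by
    have h := congrArg Prod.fst he'
    rw [Prod.fst_mul, Prod.fst_mul, Prod.pow_fst, Prod.pow_fst, Prod.pow_fst] at h
    change (FreeGroup.of (0 : Fin 2)) ^ i * 1 ^ j * 1 ^ l = 1 at h
    rwa [one_zpow, one_zpow, mul_one, mul_one] at h
  have e2 := congrArg Prod.snd he'
  have e3 : ∀ t : Fin 2, i * 0 + j * (Pi.single 0 1 : Fin 2 → ℤ) t +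
      l * (Pi.single 1 1 : Fin 2 → ℤ) t = 0 := by
    intro t
    have h4 : (Multiplicative.toAdd (a ^ i * z1 ^ j * z2 ^ l).2) t = 0 := by
      rw [e2]; rfl
    rw [D_mul, D_mul, D_pow, D_pow, D_pow] at h4
    exact h4
  have e4 := e3 0
  have e5 := e3 1
  simp at e4 e5
  refine ⟨?_, e4, e5⟩
  have h6 : (FreeGroup.lift fun _ : Fin 2 => Multiplicative.ofAdd (1 : ℤ))
      (FreeGroup.of (0 : Fin 2) ^ i) = 1 := by rw [e1, map_one]
  rw [map_zpow, FreeGroup.lift_apply_of, ← ofAdd_zsmul, smul_eq_mul, mul_one] at h6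
  exact ofAdd_eq_one.mp h6

/-- **`F₂ × F₂` answers the question with `m = 2`**: it is finitely presented, intersection-full
and does not contain `F₂ × ℤ²`. -/
theorem result :
    Group.IsFinitelyPresented (FreeGroup (Fin 2) × FreeGroup (Fin 2)) ∧
    IntersectionFull (FreeGroup (Fin 2) × FreeGroup (Fin 2)) ∧
    ¬ ∃ f : FreeGroup (Fin 2) × Multiplicative (Fin 2 → ℤ) →*
      FreeGroup (Fin 2) × FreeGroup (Fin 2), Function.Injective f :=
  ⟨fp, full, no_embedding⟩

end Pool.Agent.Results.MP_d567b2_al.ProductOfTwoFree
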